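import Mathlib
import Pool.Agent.Helper936.Split

set_option autoImplicit false

open Set Topology

namespace Pool.Agent.Results.MP_19f369_gt.NotRightBounded

/-- The semigroup `S(X)` of continuous self-maps, with the topology of pointwise convergence
(the subspace topology of the product `X → X`). -/
abbrev SelfMap (X : Type) [TopologicalSpace X] : Type := {f : X → X // Continuous f}

/-- `S(X)` is right bounded: for every neighbourhood `U` of the identity there is a finite
set `F` with `S(X) = U F`, where `u f` is the composition `u ∘ f`. -/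
def RightBounded (X : Type) [TopologicalSpace X] : Prop :=
  ∀ U : Set (SelfMap X), U ∈ 𝓝 (⟨id, continuous_id⟩ : SelfMap X) →
    ∃ F : Set (SelfMap X), F.Finite ∧ ∀ g : SelfMap X, ∃ u ∈ U, ∃ f ∈ F, g.1 = u.1 ∘ f.1

/-- Covering dimension at most zero: every finite open cover can be shrunk to a cover by
pairwise disjoint open sets. -/
def CoveringDimZero (X : Type) [TopologicalSpace X] : Prop :=
  ∀ (n : ℕ) (O : Fin n → Set X), (∀ i, IsOpen (O i)) → (⋃ i, O i) = univ →
    ∃ W : Fin n → Set X, (∀ i, IsOpen (W i)) ∧ (∀ i, W i ⊆ O i) ∧ (⋃ i, W i) = univ ∧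
      ∀ i j, i ≠ j → Disjoint (W i) (W j)

/-- `X` is homogeneous. -/
def Homogeneous (X : Type) [TopologicalSpace X] : Prop :=
  ∀ x y : X, ∃ h : X ≃ₜ X, h x = y

lemma coveringDimZero {X : Type} [TopologicalSpace X] [CompactSpace X]
    (hb : TopologicalSpace.IsTopologicalBasis {s : Set X | IsClopen s}) : CoveringDimZero X := by
  classical
  intro n O hO hcov
  have h1 : ∀ x : X, ∃ i : Fin n, ∃ C : Set X, IsClopen C ∧ x ∈ C ∧ C ⊆ O i := by
    intro x
    have hx : x ∈ ⋃ i, O i := by rw [hcov]; exact mem_univ x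
    obtain ⟨i, hi⟩ := mem_iUnion.1 hx
    obtain ⟨C, hC, hxC, hCO⟩ := hb.exists_subset_of_mem_open hi (hO i)
    exact ⟨i, C, hC, hxC, hCO⟩
  choose i C hC hxC hCO using h1
  obtain ⟨t, ht⟩ := CompactSpace.elim_nhds_subcover C (fun x => (hC x).isOpen.mem_nhds (hxC x))
  -- group the clopen sets
  let B : Fin n → Set X := fun k => ⋃ x ∈ t.filter (fun x => i x = k), C x
  have hB : ∀ k, IsClopen (B k) := fun k => (t.filter _).finite_toSet.isClopen_biUnion
    (fun x _ => hC x)
  have hBO : ∀ k, B k ⊆ O k := by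
    intro k
    refine iUnion₂_subset fun x hx => ?_
    have := (Finset.mem_filter.1 hx).2
    rw [← this]
    exact hCO x
  have hBc : ∀ x : X, ∃ k, x ∈ B k := by
    intro x
    have hx : x ∈ ⋃ y ∈ t, C y := by rw [ht]; trivial
    obtain ⟨y, hy, hxy⟩ := mem_iUnion₂.1 hx
    exact ⟨i y, mem_iUnion₂.2 ⟨y, Finset.mem_filter.2 ⟨hy, rfl⟩, hxy⟩⟩
  refine ⟨fun k => B k ∩ ⋂ j ∈ Finset.univ.filter (fun j => j < k), (B j)ᶜ, ?_, ?_, ?_, ?_⟩
  · intro k
    exact (hB k).isOpen.inter (isOpen_biInter_finset fun j _ => (hB j).isClosed.isOpen_compl)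
  · intro k
    exact inter_subset_left.trans (hBO k)
  · rw [eq_univ_iff_forall]
    intro x
    obtain ⟨k, hk, hmin⟩ := WellFounded.has_min (wellFounded_lt : WellFounded (fun a b : Fin n => a < b))
      {k | x ∈ B k} (hBc x)
    refine mem_iUnion.2 ⟨k, hk, mem_iInter₂.2 fun j hj hxj => ?_⟩
    exact hmin j hxj (Finset.mem_filter.1 hj).2
  · have key : ∀ j k : Fin n, j < k →
        Disjoint (B j ∩ ⋂ l ∈ Finset.univ.filter (fun l => l < j), (B l)ᶜ)
          (B k ∩ ⋂ l ∈ Finset.univ.filter (fun l => l < k), (B l)ᶜ) := by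
      intro j k hjk
      rw [Set.disjoint_left]
      rintro x ⟨h1, _⟩ ⟨_, h2⟩
      exact mem_iInter₂.1 h2 j (Finset.mem_filter.2 ⟨Finset.mem_univ _, hjk⟩) h1
    intro j k hne
    rcases lt_or_gt_of_ne hne with h | h
    · exact key j k h
    · exact (key k j h).symm

/-- There is a nonempty zero-dimensional compact Hausdorff homogeneous space `X` whose semigroup
of continuous self-maps with the pointwise topology is not right bounded. -/
theorem result : ∃ (X : Type) (_ : TopologicalSpace X),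
    Nonempty X ∧ CompactSpace X ∧ T2Space X ∧ CoveringDimZero X ∧ Homogeneous X ∧
      ¬ RightBounded X := by
  refine ⟨Pool.Agent.Helper936.Split.X, inferInstance,
    ⟨Pool.Agent.Helper936.Split.pt 0 false⟩, inferInstance, inferInstance,
    coveringDimZero Pool.Agent.Helper936.Split.clopen_basis,
    Pool.Agent.Helper936.Split.homogeneous, ?_⟩
  intro H
  obtain ⟨U, hU, hbad⟩ := Pool.Agent.Helper936.Split.not_right_bounded
  obtain ⟨F, hF, h⟩ := H (Subtype.val ⁻¹' U)
    (continuous_subtype_val.continuousAt.preimage_mem_nhds hU)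
  obtain ⟨g, hg, hg'⟩ := hbad (Subtype.val '' F) (hF.image _)
    (by rintro _ ⟨f, _, rfl⟩; exact f.2)
  obtain ⟨u, hu, f, hf, hgf⟩ := h ⟨g, hg⟩
  exact hg' f.1 ⟨f, hf, rfl⟩ u.1 hu u.2 hgf

end Pool.Agent.Results.MP_19f369_gt.NotRightBounded
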